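import Pool.Agent.Q82.FB10

open Pool.Agent.Q82.FormDelta

namespace Pool.Agent.Results.MP_62a15f_an.StrictInequality

/-- In every dimension `d ≥ 1` there are a symmetric sub-Markovian semigroup on `ℝ^d` and a
potential `V ≥ 0` which is `T`-bounded in `L¹`, such that `δ = 1` and the `L²` form bound `β`
is strictly smaller than `1`. -/
theorem result (d : ℕ) (hd : 1 ≤ d) :
    ∃ (S : SymSubMarkov d) (V : Rd d → ℝ), Measurable V ∧ (∀ x, 0 ≤ V x) ∧ S.TBounded V ∧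
      S.IsDelta V 1 ∧ (∃ a, S.IsFormBound V a) ∧ sInf {a : ℝ | S.IsFormBound V a} < 1 :=
  ⟨Pool.Agent.Q82.FB.SgN d, Pool.Agent.Q82.FB.Vn d, Pool.Agent.Q82.FB.Vn_meas d,
    fun _ => Nat.cast_nonneg _, Pool.Agent.Q82.FB.tboundedN d, Pool.Agent.Q82.FB.isDeltaN hd,
    ⟨_, Pool.Agent.Q82.FB.isFormBoundN hd⟩, Pool.Agent.Q82.FB.formBound_ltN hd⟩

end Pool.Agent.Results.MP_62a15f_an.StrictInequality
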